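import Pool.Agent.Run7.h764.BLA.Clq2

/-!
# The upper Birkhoff-Lewis inequality for the values at real `λ ≥ 4`

A map with only triple vertices and `n + 3` regions is the dual of a plane triangulation with
`n + 3` vertices (parallel edges are allowed, they do not matter for the colourings).  The upper
inequality `R(λ) ≤ (λ - 2)^n` is shown for all real `λ ≥ 4`.
-/

set_option autoImplicit false

namespace Pool.Agent.Results.MP_f52c03_co.UpperHalfPointwise

open Polynomial

/-- `p` is the chromatic polynomial of `G`: at every natural number `k` its value is the number of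
proper colourings of `G` with `k` colours. -/
def IsChrom {V : Type} (G : SimpleGraph V) (p : ℝ[X]) : Prop :=
  ∀ k : ℕ, p.eval (k : ℝ) = (Nat.card (G.Coloring (Fin k)) : ℝ)

/-- `T` is a polygon with the vertices `0, …, n+1` (in this order) and its sides, triangulated by
diagonals: no two edges cross, `0` and `n+1` are adjacent, and every edge `a c` with other vertices
between `a` and `c` is a side of a triangle `a b c` with `a < b < c`.  (`n = 0`: one edge.) -/
def TriangulatedPolygon {n : ℕ} (T : SimpleGraph (Fin (n + 2))) : Prop :=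
  (∀ a b c d : Fin (n + 2), a < b → b < c → c < d → T.Adj a c → ¬ T.Adj b d) ∧
    T.Adj 0 (Fin.last (n + 1)) ∧
    ∀ a c : Fin (n + 2), T.Adj a c → a.val + 1 < c.val →
      ∃ b, a < b ∧ b < c ∧ T.Adj a b ∧ T.Adj b c

/-- The least class of graphs which contains the unions of two triangulated polygons with the same
vertices (one polygon is triangulated inside, the other one outside) and all graphs `G` which
consist of two graphs of the class, the induced subgraphs on `A` and `B`, with exactly an edge `x y`
or a triangle `x y z` in common.  (By Whitney's theorem the graph of every triangulation of the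
sphere, parallel edges being allowed, belongs to this class: cut it along digons and separating
triangles, the pieces have Hamiltonian cycles; this is not in Lean.) -/
inductive Glued : (V : Type) → SimpleGraph V → Prop
  | union (n : ℕ) (S T : SimpleGraph (Fin (n + 2))) (V : Type) (G : SimpleGraph V)
      (e : (S ⊔ T) ≃g G) : TriangulatedPolygon S → TriangulatedPolygon T → Glued V G
  | edge (V : Type) (G : SimpleGraph V) (A B : Set V) (x y : V) (hA : x ∈ A ∧ y ∈ A)
      (hB : x ∈ B ∧ y ∈ B) (hAB : ∀ v, v ∈ A → v ∈ B → v = x ∨ v = y)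
      (hcov : ∀ v, v ∈ A ∨ v ∈ B) (hadj : G.Adj x y)
      (hE : ∀ a b, G.Adj a b → (a ∈ A ∧ b ∈ A) ∨ (a ∈ B ∧ b ∈ B)) :
      Glued A (G.induce A) → Glued B (G.induce B) → Glued V G
  | triangle (V : Type) (G : SimpleGraph V) (A B : Set V) (x y z : V)
      (hA : x ∈ A ∧ y ∈ A ∧ z ∈ A) (hB : x ∈ B ∧ y ∈ B ∧ z ∈ B)
      (hAB : ∀ v, v ∈ A → v ∈ B → v = x ∨ v = y ∨ v = z)
      (hcov : ∀ v, v ∈ A ∨ v ∈ B) (hadj : G.Adj x y ∧ G.Adj y z ∧ G.Adj x z)
      (hE : ∀ a b, G.Adj a b → (a ∈ A ∧ b ∈ A) ∨ (a ∈ B ∧ b ∈ B)) :
      Glued A (G.induce A) → Glued B (G.induce B) → Glued V G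

/-- Let `G` be a graph with `n + 3` vertices of the class `Glued` (the dual of a map with `n + 3`
regions), and `p` its chromatic polynomial.  Then `p = λ (λ - 1) (λ - 2) R`, where the polynomial
`R` satisfies `|R(λ)| ≤ (λ - 2)^n` for all real `λ ≥ 4`; in particular the last coefficient `c_n` of
`R` in powers of `λ - 4` is at most `2^n`. -/
theorem result (V : Type) [Finite V] (G : SimpleGraph V) (hG : Glued V G) (n : ℕ)
    (hn : Nat.card V = n + 3) (p : ℝ[X]) (hp : IsChrom G p) :
    ∃ R : ℝ[X], p = X * (X - 1) * (X - 2) * R ∧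
      (∀ l : ℝ, 4 ≤ l → |R.eval l| ≤ (l - 2) ^ n) ∧
      |(R.comp (X + 4)).coeff 0| ≤ 2 ^ n := by
  have hT : Pool.Agent.Run7.h764.BLA.Tg2 V G := by
    clear * - hG
    induction hG with
    | union n S T V G e hS hT => exact .union n S T V G e hS hT
    | edge V G A B x y hA hB hAB hcov hadj hE _ _ ihA ihB =>
      exact .edge V G A B x y hA hB hAB hcov hadj hE ihA ihB
    | triangle V G A B x y z hA hB hAB hcov hadj hE _ _ ihA ihB =>
      exact .triangle V G A B x y z hA hB hAB hcov hadj hE ihA ihB
  have hpc : p = Pool.Agent.H207R2.BL.chr G := Pool.Agent.H207R2.BL.eq_chr hp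
  obtain ⟨R, hR⟩ := Pool.Agent.Run7.h764.BLA.exists_quot
    (Pool.Agent.Run7.h764.BLA.Tg2_triangle hT (by omega))
  have hb := fun l hl => Pool.Agent.Run7.h764.BLA.quot_bound2 hT n hn R hR l hl
  refine ⟨R, hpc.trans hR, hb, ?_⟩
  have h := hb 4 le_rfl
  have e1 : (R.comp (X + 4)).coeff 0 = R.eval 4 := by
    rw [Polynomial.coeff_zero_eq_eval_zero, Polynomial.eval_comp]
    simp
  rw [e1]
  refine h.trans_eq ?_
  norm_num

end Pool.Agent.Results.MP_f52c03_co.UpperHalfPointwise
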